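import Pool.Agent.P8H25.CSP.NGrow

/-!
# The congruence subgroup problem for mapping class groups: a gap theorem

Let `G` be the fundamental group of the closed orientable surface `S` of genus `g ≥ 1` and let
`Mod = Out (G)` be the extended mapping class group of `S`. A subgroup of `Mod` is given by its inverse
image in `Aut (G)`, a subgroup which contains the inner automorphisms (`Outer`); the index is the same. A
congruence subgroup is one which contains the kernel of `Out (G) → Out (G / Γ)` for some characteristic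
subgroup `Γ` of finite index. Put `c = 1 / (6400 g ^ 4 (log 4) ^ 2)`.

**Gap theorem.** Either all subgroups of finite index of `Mod` are congruence subgroups, or for ALL large
`n` the number of the NORMAL noncongruence subgroups of index at most `n` is at least

  `exp (c (log n / log log n) ^ 2)`,

in particular at least `n ^ K` for every `K`. So Question Q1 is true if and only if for every `g ≥ 2` there
are infinitely many `n` for which there are less than `exp (c (log n / log log n) ^ 2)` normal noncongruence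
subgroups of index at most `n`, for instance if their number is bounded by a polynomial for infinitely many
`n`.

**Logarithmic law.** Let `s (n)` be the number of all subgroups of index at most `n` and `nc (n)` the number
of the noncongruence subgroups. If there is a noncongruence subgroup of index `d`, then for all natural
numbers `a < b` one has `nc (d n) ≥ s (n) ^ (a / b)` for all large `n`: on the logarithmic scale the
noncongruence subgroups are as frequent as all subgroups. If there is a normal noncongruence subgroup of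
index `d`, then the same is true for the numbers of the normal subgroups.

The proof: the intersection with a (normal) noncongruence subgroup `N` of index `d` maps the (normal)
subgroups of index at most `n` to noncongruence subgroups of index at most `d n`, with fibres of at most
`(d n) ^ (log₂ d)` elements; and there are at least `2 ^ (m ^ 2)` normal subgroups of index at most
`(p_1 ... p_(2m)) ^ (4 g ^ 2)` for distinct odd primes `p_i`, because products of powers of Dehn twists act
on the homology of the surface by arbitrary signs modulo `p_1, ..., p_(2m)`.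
-/

set_option autoImplicit false

namespace Pool.Agent.Results.MP_59b15d_al.GapTheorem

open Subgroup Pool.Agent.P8H25.CSP Pool.Agent.P8H25.CSP.Sf

/-- `G` is the fundamental group of the closed orientable surface of genus `g`. -/
def IsSurfaceGroup (g : ℕ) (G : Type) [Group G] : Prop :=
  Nonempty (G ≃* PresentedGroup
    ({(List.ofFn (fun i : Fin g =>
        FreeGroup.of (Sum.inl i : Fin g ⊕ Fin g) *
        FreeGroup.of (Sum.inr i : Fin g ⊕ Fin g) *
        (FreeGroup.of (Sum.inl i : Fin g ⊕ Fin g))⁻¹ *
        (FreeGroup.of (Sum.inr i : Fin g ⊕ Fin g))⁻¹)).prod} :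
      Set (FreeGroup (Fin g ⊕ Fin g))))

/-- Question Q1: the congruence subgroup property for all closed orientable surfaces of genus at least two. -/
def Question : Prop := ∀ g : ℕ, 2 ≤ g → ∀ (G : Type) [Group G], IsSurfaceGroup g G → CongruenceProperty G

/-- `exp (c (log n / log log n) ^ 2)`, rounded down. -/
noncomputable def fast (c : ℝ) (n : ℕ) : ℕ∞ :=
  ((⌊Real.exp (c * (Real.log n / Real.log (Real.log n)) ^ 2)⌋₊ : ℕ) : ℕ∞)

/-- The constant `c = 1 / (6400 g ^ 4 (log 4) ^ 2)`. -/
noncomputable def rate (g : ℕ) : ℝ := 1 / (6400 * (g : ℝ) ^ 4 * (Real.log 4) ^ 2)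

/-- If there is a noncongruence subgroup `N` of index `d`, then `s (n) ^ a ≤ nc (d n) ^ b` for all `a < b`
and all large `n`; and, if `N` is normal, the same for the numbers of the normal subgroups. -/
def LogarithmicLaw (G : Type) [Group G] : Prop :=
  ∀ N : Subgroup (MulAut G), N.index ≠ 0 → Outer N → ¬ Congruence N → ∀ a b : ℕ, a < b →
    (∃ n₀ : ℕ, ∀ n : ℕ, n₀ ≤ n → (subs G n) ^ a ≤ (ncSubs G (N.index * n)) ^ b) ∧
    (N.Normal → ∃ n₀ : ℕ, ∀ n : ℕ, n₀ ≤ n → (normalSubs G n) ^ a ≤ (ncNormalSubs G (N.index * n)) ^ b)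

/-- There are infinitely many `n` with less than `exp (c (log n / log log n) ^ 2)` (rounded down) normal
noncongruence subgroups of index at most `n`. -/
def FewOften (G : Type) [Group G] (c : ℝ) : Prop :=
  ∀ n₀ : ℕ, ∃ n : ℕ, n₀ ≤ n ∧ ncNormalSubs G n < fast c n

/-- For some `K` there are infinitely many `n` with less than `n ^ K` normal noncongruence subgroups of
index at most `n`. -/
def PolynomialOften (G : Type) [Group G] : Prop :=
  ∃ K : ℕ, ∀ n₀ : ℕ, ∃ n : ℕ, n₀ ≤ n ∧ ncNormalSubs G n < ((n ^ K : ℕ) : ℕ∞)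

lemma rate_eq (g : ℕ) : 1 / (200 * ((((2 * g) * (2 * g) : ℕ) : ℝ) * Real.log 4) ^ 2) / 2 = rate g := by
  unfold rate
  push_cast
  rcases Nat.eq_zero_or_pos g with rfl | hg
  · simp
  · have h1 : (0 : ℝ) < g := by exact_mod_cast hg
    have h2 : 0 < Real.log 4 := Real.log_pos (by norm_num)
    field_simp
    ring

lemma fast_pos (c : ℝ) (hc : 0 ≤ c) (n : ℕ) : 0 < fast c n := by
  unfold fast
  have h1 : 1 ≤ ⌊Real.exp (c * (Real.log n / Real.log (Real.log n)) ^ 2)⌋₊ := by
    rw [Nat.one_le_floor_iff]
    exact Real.one_le_exp (by positivity)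
  exact_mod_cast h1

lemma ncNormal_zero {G : Type} [Group G] (h : CongruenceProperty G) (n : ℕ) : ncNormalSubs G n = 0 := by
  have h1 := ncNormalSubs_le (G := G) n
  rw [nc_zero h] at h1
  exact le_antisymm h1 (zero_le)

/-- **The gap theorem for the number of the noncongruence subgroups of mapping class groups.** -/
theorem result :
    (∀ g : ℕ, 1 ≤ g → ∀ (G : Type) [Group G], IsSurfaceGroup g G →
      (CongruenceProperty G ∨ ∃ n₀ : ℕ, ∀ n : ℕ, n₀ ≤ n → fast (rate g) n ≤ ncNormalSubs G n) ∧
      (CongruenceProperty G ∨ ∀ K : ℕ, ∃ n₀ : ℕ, ∀ n : ℕ, n₀ ≤ n → ((n ^ K : ℕ) : ℕ∞) ≤ ncNormalSubs G n) ∧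
      (CongruenceProperty G ↔ FewOften G (rate g)) ∧
      (CongruenceProperty G ↔ PolynomialOften G) ∧
      (∀ n : ℕ, ncNormalSubs G n ≤ ncSubs G n) ∧
      LogarithmicLaw G) ∧
    (Question ↔ ∀ g : ℕ, 2 ≤ g → ∀ (G : Type) [Group G], IsSurfaceGroup g G → FewOften G (rate g)) ∧
    (Question ↔ ∀ g : ℕ, 2 ≤ g → ∀ (G : Type) [Group G], IsSurfaceGroup g G → PolynomialOften G) := by
  have hmain : ∀ g : ℕ, 1 ≤ g → ∀ (G : Type) [Group G], IsSurfaceGroup g G →
      (CongruenceProperty G ∨ ∃ n₀ : ℕ, ∀ n : ℕ, n₀ ≤ n → fast (rate g) n ≤ ncNormalSubs G n) ∧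
      (CongruenceProperty G ∨ ∀ K : ℕ, ∃ n₀ : ℕ, ∀ n : ℕ, n₀ ≤ n → ((n ^ K : ℕ) : ℕ∞) ≤ ncNormalSubs G n) ∧
      (CongruenceProperty G ↔ FewOften G (rate g)) ∧
      (CongruenceProperty G ↔ PolynomialOften G) ∧
      (∀ n : ℕ, ncNormalSubs G n ≤ ncSubs G n) ∧
      LogarithmicLaw G := by
    intro g hg G _ hG
    obtain ⟨e⟩ := hG
    have hsuper : Super G := by
      intro K
      obtain ⟨n₀, h⟩ := superpoly g hg K
      exact ⟨n₀, fun n hn => (h n hn).trans (subs_congr e n)⟩
    have hsuperN : SuperN G := by
      intro K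
      obtain ⟨n₀, h⟩ := superpoly_normal g hg K
      exact ⟨n₀, fun n hn => (h n hn).trans (normalSubs_congr e n)⟩
    have hc0 : 0 < 1 / (200 * ((((2 * g) * (2 * g) : ℕ) : ℝ) * Real.log 4) ^ 2) := by
      have h1 : 0 < (((2 * g) * (2 * g) : ℕ) : ℝ) := by
        have : 0 < (2 * g) * (2 * g) := by positivity
        exact_mod_cast this
      have h2 : 0 < Real.log 4 := Real.log_pos (by norm_num)
      positivity
    have hfast : FastN G (1 / (200 * ((((2 * g) * (2 * g) : ℕ) : ℝ) * Real.log 4) ^ 2)) := by
      obtain ⟨n₀, h⟩ := fast_normal g hg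
      exact ⟨n₀, fun n hn => (h n hn).trans (normalSubs_congr e n)⟩
    have h1 : CongruenceProperty G ∨ ∃ n₀ : ℕ, ∀ n : ℕ, n₀ ≤ n → fast (rate g) n ≤ ncNormalSubs G n := by
      by_cases h : CongruenceProperty G
      · exact Or.inl h
      · right
        have h2 := gap_fast_normal hc0 hfast h
        rw [rate_eq] at h2
        exact h2
    have h2 : CongruenceProperty G ∨
        ∀ K : ℕ, ∃ n₀ : ℕ, ∀ n : ℕ, n₀ ≤ n → ((n ^ K : ℕ) : ℕ∞) ≤ ncNormalSubs G n := by
      by_cases h : CongruenceProperty G
      · exact Or.inl h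
      · exact Or.inr fun K => gap_normal hsuperN h K
    have hr : 0 ≤ rate g := by
      rw [← rate_eq]
      linarith
    refine ⟨h1, h2, ⟨fun h n₀ => ⟨n₀, le_rfl, ?_⟩, fun h => ?_⟩, ⟨fun h => ⟨0, fun n₀ => ⟨n₀, le_rfl, ?_⟩⟩, ?_⟩,
      fun n => ncNormalSubs_le n, ?_⟩
    · rw [ncNormal_zero h]
      exact fast_pos _ hr _
    · rcases h1 with h3 | ⟨n₀, h3⟩
      · exact h3
      · obtain ⟨n, hn, h4⟩ := h n₀
        exact absurd h4 (not_lt.2 (h3 n hn))
    · rw [ncNormal_zero h, pow_zero]
      exact_mod_cast Nat.one_pos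
    · rintro ⟨K, h⟩
      rcases h2 with h3 | h3
      · exact h3
      · obtain ⟨n₀, h4⟩ := h3 K
        obtain ⟨n, hn, h5⟩ := h n₀
        exact absurd h5 (not_lt.2 (h4 n hn))
    · intro N hN0 hNo hN a b hab
      exact ⟨log_law hsuper N hN0 hNo hN a b hab, fun hNn => log_law_normal hsuperN N hN0 hNo hNn hN a b hab⟩
  refine ⟨hmain, ?_, ?_⟩
  · exact forall_congr' fun g => forall_congr' fun hg => forall_congr' fun G => forall_congr' fun _ =>
      forall_congr' fun hG => (hmain g (by omega) G hG).2.2.1
  · exact forall_congr' fun g => forall_congr' fun hg => forall_congr' fun G => forall_congr' fun _ =>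
      forall_congr' fun hG => (hmain g (by omega) G hG).2.2.2.1

end Pool.Agent.Results.MP_59b15d_al.GapTheorem
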