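import Pool.Agent.P8H72.JF.Fin2
import Pool.Agent.P8H72.JF.All
import Pool.Agent.P8H72.JF.Deep

/-!
# Subgroups of finite index of the mapping class group and the Johnson filtration

Let `π` be the fundamental group of the closed orientable surface `S` of genus `g ≥ 3`. The Johnson filtration of
`Mod_S = Out (π)` consists of the kernels `J(c)` of the maps `Out (π) → Out (π / γ_{c+1} π)`, where `γ_1 π = π`, `γ_2 π = [π, π]`, ...
is the lower central series (in Mathlib `(⊤ : Subgroup π).lowerCentralSeries c = γ_{c+1} π`). Subgroups of `Out (π)` are given by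
their inverse images in `Aut (π)`.

(1) Every subgroup of finite index of `Mod_S` which contains `C ∩ J(c)` for some congruence subgroup `C` and some `c` (for instance a term `J(c)` of the
Johnson filtration) contains a congruence subgroup.

(2) For every subgroup `H` of finite index of `Mod_S` and every `c` the subgroup `H · J(c)` contains a congruence subgroup.

(3) The same holds relative to every subgroup `A` of `Aut (π)` which contains the inner automorphisms and whose action on homology is as large
as possible up to finite index: `A · I` has finite index in `Aut (π)`, where `I` is the group of the automorphisms which act trivially on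
`π / [π, π]`: the subgroups of finite index of `A` which contain `A ∩ J(c)` are congruence subgroups.

(4) So the congruence subgroup property of `Mod_S` holds if and only if every subgroup of finite index contains `C ∩ J(c)` for some congruence subgroup
`C` and some `c`; and if and only if for every surjection `f` of a normal congruence subgroup `H` onto a finite
simple group `Q`, trivial on the inner automorphisms, there are `c` and a congruence subgroup `H'` contained in `H` such that
`f (J(c) ∩ H')` is not `Q`. So the obstructions, if there are any, survive on all intersections of terms of the Johnson filtration with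
congruence subgroups.

For subgroups containing the Torelli group (`c = 1`, `C = Mod_S`) statement (1) is the congruence subgroup property of `Sp_{2g}(ℤ)`
(Bass-Milnor-Serre, Mennicke), for which a complete proof is included here: an elementary reduction of integral
symplectic matrices by elementary matrices congruent to one (`S_STA`, `S_STB`), the theorem of Bass-Lazard-Serre and Mennicke for `SL_g(ℤ)`
(library), an identity in `Sp_4` between short and long roots (`S_IDN`) and the law of quadratic reciprocity (`S_NTH`). For `c ≥ 2` it is combined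
with the reduction of the Johnson filtration to the action on homology of the starting files (`R569.CS`, `N66.TJ`). Statement (4) uses
`P8H25.CSP` (helper25, `NoncongruenceFrequency`), where the weaker property `f (H') = Q` was obtained.

Authors: helper72 (statements, assembly), helper21, helper42, helper44, helper45, helper53, helper54, helper55, helper59, helper66,
helper69, helper75, helper82, helper94, helper95 (the packages in `P8H72.JF`, `P8H21.JF`, `P8H42.JF`, `P8H59.JF`, `P8H75.JF`), helper25
(`P8H25.CSP`).
-/

set_option autoImplicit false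

namespace Pool.Agent.Results.MP_59b15d_al.JohnsonFiltration

/-- The relator `[a_1, b_1] ⋯ [a_g, b_g]` of the surface group. -/
def rel (g : ℕ) : FreeGroup (Fin g ⊕ Fin g) :=
  (List.ofFn (fun i : Fin g =>
    FreeGroup.of (Sum.inl i : Fin g ⊕ Fin g) * FreeGroup.of (Sum.inr i : Fin g ⊕ Fin g) *
    (FreeGroup.of (Sum.inl i : Fin g ⊕ Fin g))⁻¹ *
    (FreeGroup.of (Sum.inr i : Fin g ⊕ Fin g))⁻¹)).prod

/-- The fundamental group of the closed orientable surface of genus `g`. -/
abbrev SurfaceGroup (g : ℕ) : Type := PresentedGroup ({rel g} : Set (FreeGroup (Fin g ⊕ Fin g)))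

section

variable {G : Type} [Group G]

/-- `φ` acts on `G / K` as an inner automorphism: for a characteristic subgroup `K`, the class of `φ` is in the kernel of
`Out (G) → Out (G / K)`. -/
def InnerMod (K : Subgroup G) (φ : MulAut G) : Prop :=
  ∃ h : G, ∀ x : G, φ x * (h * x * h⁻¹)⁻¹ ∈ K

theorem Johnson_one (c : ℕ) : (1 : MulAut G) ∈ {φ | InnerMod ((⊤ : Subgroup G).lowerCentralSeries c) φ} :=
  (Pool.Agent.P8H72.JF.innG ((⊤ : Subgroup G).lowerCentralSeries c) inferInstance).one_mem

theorem Johnson_mul (c : ℕ) {a b : MulAut G}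
    (ha : a ∈ {φ | InnerMod ((⊤ : Subgroup G).lowerCentralSeries c) φ})
    (hb : b ∈ {φ | InnerMod ((⊤ : Subgroup G).lowerCentralSeries c) φ}) :
    a * b ∈ {φ | InnerMod ((⊤ : Subgroup G).lowerCentralSeries c) φ} :=
  (Pool.Agent.P8H72.JF.innG ((⊤ : Subgroup G).lowerCentralSeries c) inferInstance).mul_mem ha hb

theorem Johnson_inv (c : ℕ) {a : MulAut G}
    (ha : a ∈ {φ | InnerMod ((⊤ : Subgroup G).lowerCentralSeries c) φ}) :
    a⁻¹ ∈ {φ | InnerMod ((⊤ : Subgroup G).lowerCentralSeries c) φ} :=
  (Pool.Agent.P8H72.JF.innG ((⊤ : Subgroup G).lowerCentralSeries c) inferInstance).inv_mem ha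

/-- The inverse image in `Aut (G)` of the term `J(c)` of the Johnson filtration: the automorphisms which act as an inner automorphism on
`G / γ_{c+1} G`. -/
def Johnson (G : Type) [Group G] (c : ℕ) : Subgroup (MulAut G) where
  carrier := {φ | InnerMod ((⊤ : Subgroup G).lowerCentralSeries c) φ}
  one_mem' := Johnson_one c
  mul_mem' := Johnson_mul c
  inv_mem' := Johnson_inv c

theorem IAut_one : (1 : MulAut G) ∈ {φ : MulAut G | ∀ x : G, φ x * x⁻¹ ∈ commutator G} :=
  (Pool.Agent.P8H72.JF.mem_IA _).1 (Pool.Agent.P8H72.JF.IA G).one_mem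

theorem IAut_mul {a b : MulAut G}
    (ha : a ∈ {φ : MulAut G | ∀ x : G, φ x * x⁻¹ ∈ commutator G})
    (hb : b ∈ {φ : MulAut G | ∀ x : G, φ x * x⁻¹ ∈ commutator G}) :
    a * b ∈ {φ : MulAut G | ∀ x : G, φ x * x⁻¹ ∈ commutator G} :=
  (Pool.Agent.P8H72.JF.mem_IA (a * b)).1
    ((Pool.Agent.P8H72.JF.IA G).mul_mem ((Pool.Agent.P8H72.JF.mem_IA a).2 ha)
      ((Pool.Agent.P8H72.JF.mem_IA b).2 hb))

theorem IAut_inv {a : MulAut G}
    (ha : a ∈ {φ : MulAut G | ∀ x : G, φ x * x⁻¹ ∈ commutator G}) :
    a⁻¹ ∈ {φ : MulAut G | ∀ x : G, φ x * x⁻¹ ∈ commutator G} :=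
  (Pool.Agent.P8H72.JF.mem_IA a⁻¹).1
    ((Pool.Agent.P8H72.JF.IA G).inv_mem ((Pool.Agent.P8H72.JF.mem_IA a).2 ha))

/-- The group of the automorphisms which act trivially on `G / [G, G]`. -/
def IAut (G : Type) [Group G] : Subgroup (MulAut G) where
  carrier := {φ | ∀ x : G, φ x * x⁻¹ ∈ commutator G}
  one_mem' := IAut_one
  mul_mem' := IAut_mul
  inv_mem' := IAut_inv

theorem IAut_eq : IAut G = Pool.Agent.P8H72.JF.IA G := by
  ext φ
  exact (Pool.Agent.P8H72.JF.mem_IA φ).symm

/-- `H` contains, for some characteristic subgroup `K` of finite index of `G`, all automorphisms acting as an inner automorphism on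
`G / K`: the image of `H` in `Out (G)` contains a congruence subgroup. -/
def Congruence (H : Subgroup (MulAut G)) : Prop :=
  ∃ K : Subgroup G, K.Characteristic ∧ K.FiniteIndex ∧ ∀ φ, InnerMod K φ → φ ∈ H

/-- `V` contains, for some characteristic subgroup `K` of finite index of `G`, all elements of `A` acting as an inner automorphism on
`G / K`. -/
def CongruenceIn (A : Subgroup (MulAut G)) (V : Subgroup A) : Prop :=
  ∃ K : Subgroup G, K.Characteristic ∧ K.FiniteIndex ∧ ∀ a : A, InnerMod K a.1 → a ∈ V

/-- `A` contains the inner automorphisms and `A · IAut (G)` has finite index in `Aut (G)`. -/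
def LargeOnHomology (A : Subgroup (MulAut G)) : Prop :=
  (∀ x, MulAut.conj x ∈ A) ∧ (A ⊔ IAut G).FiniteIndex

/-- The congruence subgroup property of `Out (G)`: all subgroups of finite index contain congruence subgroups. -/
def CongruenceProperty (G : Type) [Group G] : Prop :=
  ∀ H : Subgroup (MulAut G), H.FiniteIndex → (∀ x, MulAut.conj x ∈ H) → Congruence H

/-- Every subgroup `H` of finite index of `Aut (G)` which contains `C ∩ J(c)` for some congruence subgroup `C` and some `c` is a
congruence subgroup. -/
def CongruenceAboveJohnson (G : Type) [Group G] : Prop :=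
  ∀ (c : ℕ) (C H : Subgroup (MulAut G)), Congruence C → H.FiniteIndex → C ⊓ Johnson G c ≤ H → Congruence H

/-- Every subgroup of finite index of `Out (G)` contains `C ∩ J(c)` for some congruence subgroup `C` and some `c`. -/
def JohnsonOpen (G : Type) [Group G] : Prop :=
  ∀ H : Subgroup (MulAut G), H.FiniteIndex → (∀ x, MulAut.conj x ∈ H) →
    ∃ (c : ℕ) (C : Subgroup (MulAut G)), Congruence C ∧ C ⊓ Johnson G c ≤ H

/-- For every subgroup `H` of finite index of `Aut (G)` and every `c` the subgroup generated by `H` and `J(c)` is a congruence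
subgroup. -/
def CongruenceModuloJohnson (G : Type) [Group G] : Prop :=
  ∀ (c : ℕ) (H : Subgroup (MulAut G)), H.FiniteIndex → Congruence (H ⊔ Johnson G c)

/-- For every group `A` of automorphisms which is large on homology the subgroups of finite index of `A` which contain `A ∩ J(c)`
are congruence subgroups of `A`. -/
def RelativeAboveJohnson (G : Type) [Group G] : Prop :=
  ∀ A : Subgroup (MulAut G), LargeOnHomology A → ∀ (c : ℕ) (V : Subgroup A), V.FiniteIndex →
    (∀ a : A, a.1 ∈ Johnson G c → a ∈ V) → CongruenceIn A V

/-- The homomorphism `f` on `H` is surjective on `J(c) ∩ H'` for all `c` and all congruence subgroups `H'` contained in `H`. -/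
def Deep (H : Subgroup (MulAut G)) {Q : Type} [Group Q] (f : H →* Q) : Prop :=
  ∀ (c : ℕ) (H' : Subgroup (MulAut G)), H' ≤ H → Congruence H' →
    ((H' ⊓ Johnson G c).subgroupOf H).map f = ⊤

/-- No surjection of a normal congruence subgroup onto a finite simple group, trivial on the inner automorphisms, is deep. -/
def NoDeepQuotient (G : Type) [Group G] : Prop :=
  ∀ H : Subgroup (MulAut G), Congruence H → H.Normal → ∀ (Q : Type) [Group Q], Finite Q → IsSimpleGroup Q →
    ∀ f : H →* Q, Function.Surjective f →
      (∀ (x : G) (y : H), (y : MulAut G) = MulAut.conj x → f y = 1) → ¬ Deep H f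

theorem relative_to_property (h2 : RelativeAboveJohnson G) :
    CongruenceAboveJohnson G ∧ CongruenceModuloJohnson G ∧
      (CongruenceProperty G ↔ JohnsonOpen G) ∧ (CongruenceProperty G ↔ NoDeepQuotient G) := by
  have hlarge : ∀ A : Subgroup (MulAut G), A.FiniteIndex → (∀ x, MulAut.conj x ∈ A) → LargeOnHomology A := by
    intro A hA hAi
    refine ⟨hAi, ?_⟩
    have hle : A ≤ A ⊔ IAut G := le_sup_left
    exact Subgroup.finiteIndex_of_le hle
  have hrel : ∀ (c : ℕ) (A : Subgroup (MulAut G)), Congruence A → ∀ V : Subgroup A, V.FiniteIndex →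
      (∀ a : A, a.1 ∈ Johnson G c → a ∈ V) → Congruence (V.map A.subtype) := by
    intro c A hA V hV h
    have hAf : A.FiniteIndex := ⟨Pool.Agent.P8H25.CSP.Congruence.index_ne_zero hA⟩
    obtain ⟨K, hK1, hK2, hK3⟩ := h2 A (hlarge A hAf (Pool.Agent.P8H25.CSP.Congruence.outer hA)) c V hV h
    obtain ⟨Γ, hΓ1, hΓ2, hΓ3⟩ := hA
    refine ⟨K ⊓ Γ, ?_, ?_, ?_⟩
    · refine ⟨fun φ => ?_⟩
      rw [Subgroup.comap_inf, hK1.fixed φ, hΓ1.fixed φ]
    · exact ⟨Subgroup.index_inf_ne_zero hK2.index_ne_zero hΓ2.index_ne_zero⟩
    · rintro φ ⟨k, hk⟩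
      have h4 : φ ∈ A := hΓ3 φ ⟨k, fun x => (hk x).2⟩
      exact ⟨⟨φ, h4⟩, hK3 ⟨φ, h4⟩ ⟨k, fun x => (hk x).1⟩, rfl⟩
  have h0 : CongruenceAboveJohnson G := by
    intro c C H hC hH hle
    obtain ⟨K, hK1, hK2, hK3⟩ := hrel c C hC (H.subgroupOf C) inferInstance
      (fun a ha => Subgroup.mem_subgroupOf.2 (hle ⟨a.2, ha⟩))
    refine ⟨K, hK1, hK2, fun φ hφ => ?_⟩
    obtain ⟨a, ha, rfl⟩ := hK3 φ hφ
    exact ha
  have htop : Congruence (⊤ : Subgroup (MulAut G)) := ⟨⊤, inferInstance, inferInstance, fun _ _ => Subgroup.mem_top _⟩
  have h1 : CongruenceModuloJohnson G := by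
    intro c H hH
    have hW : (H ⊔ Johnson G c).FiniteIndex := Subgroup.finiteIndex_of_le (le_sup_left : H ≤ H ⊔ Johnson G c)
    exact h0 c ⊤ _ htop hW (inf_le_right.trans le_sup_right)
  refine ⟨h0, h1, ⟨fun h H hH hHi => ⟨0, H, h H hH hHi, inf_le_left⟩, fun h H hH hHi => ?_⟩, ?_⟩
  · obtain ⟨c, C, hC, hle⟩ := h H hH hHi
    exact h0 c C H hC hH hle
  · exact Pool.Agent.P8H72.JF.deep_iff (fun c => Johnson G c)
      (fun c => Pool.Agent.P8H72.JF.innG_normal ((⊤ : Subgroup G).lowerCentralSeries c) inferInstance) hrel

end

/-- Let `g ≥ 3` and let `π` be the fundamental group of the closed orientable surface of genus `g`.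
(1) Every subgroup `H` of finite index of `Aut (π)` which contains `C ∩ J(c)` for some congruence subgroup `C` and some `c` contains, for some characteristic
subgroup `K` of finite index of `π`, all automorphisms acting as an inner automorphism on `π / K`.
(2) For every subgroup `H` of finite index of `Aut (π)` and every `c` the subgroup `H · J(c)` has this property.
(3) Let `A` be a subgroup of `Aut (π)` which contains the inner automorphisms and such that `A · IAut (π)` has finite index, and
`V` a subgroup of finite index of `A` which contains `A ∩ J(c)`. Then `V` contains,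
for some characteristic subgroup `K` of finite index of `π`, all elements of `A` acting as an inner automorphism on `π / K`.
(4) The congruence subgroup property of `Out (π)` holds if and only if every subgroup of finite index contains `C ∩ J(c)` for some congruence subgroup
`C` and some `c`.
(5) The congruence subgroup property of `Out (π)` holds if and only if there is no surjection `f` of a normal congruence subgroup `H` onto a finite
simple group `Q`, trivial on the inner automorphisms, with `f (J(c) ∩ H') = Q` for all `c` and all congruence subgroups `H'` contained in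
`H`. -/
theorem result (g : ℕ) (hg : 3 ≤ g) :
    CongruenceAboveJohnson (SurfaceGroup g) ∧ CongruenceModuloJohnson (SurfaceGroup g) ∧
      RelativeAboveJohnson (SurfaceGroup g) ∧
      (CongruenceProperty (SurfaceGroup g) ↔ JohnsonOpen (SurfaceGroup g)) ∧
      (CongruenceProperty (SurfaceGroup g) ↔ NoDeepQuotient (SurfaceGroup g)) := by
  have hfg : Group.FG (SurfaceGroup g) := QuotientGroup.fg _
  obtain ⟨n, rfl⟩ : ∃ n, g = n + 3 := ⟨g - 3, by omega⟩
  have h2 : RelativeAboveJohnson (SurfaceGroup (n + 3)) := by
    rintro A ⟨hA1, hA2⟩ c V hV h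
    rw [IAut_eq] at hA2
    have hfg' : Group.FG (Pool.Agent.P8H72.JF.Sg (n + 3)) := hfg
    exact Pool.Agent.P8H72.JF.reduce (fun W hW1 hW2 hW3 =>
      Pool.Agent.P8H72.JF.main n W (fun φ hφ => hW3 ((Pool.Agent.P8H72.JF.mem_IA φ).2 hφ))) A hA1 hA2 c V hV h
  obtain ⟨h0, h1, h3, h4⟩ := relative_to_property h2
  exact ⟨h0, h1, h2, h3, h4⟩

end Pool.Agent.Results.MP_59b15d_al.JohnsonFiltration
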