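import Pool.Agent.P8H25.CSP.Out

/-!
# The congruence subgroup problem for mapping class groups: frequency of the noncongruence subgroups

Let `G` be a group and let `Mod = Out (G)`; for the fundamental group `G` of a closed orientable surface
`S` of genus at least one this is the extended mapping class group of `S`. A subgroup of `Mod` is given by
its inverse image in `Aut (G)`, a subgroup `H` which contains the inner automorphisms (`Outer H`); the index
is the same. `Congruence H` says that it contains the kernel of `Out (G) → Out (G / Γ)` for some
characteristic subgroup `Γ` of finite index. The congruence subgroup property (`CongruenceProperty G`) says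
that this is the case for all subgroups of finite index.

(1) If there is a noncongruence subgroup `N` of index `d`, then for all `n` the number `s_n` of all
subgroups of `Mod` of index at most `n` is at most `(d n) ^ (log₂ d)` times the number `nc_{dn}` of the
noncongruence subgroups of index at most `d n`. This is true in every family of subgroups closed under the
intersection with `N`, for instance for the normal subgroups if `N` is normal.

(2) So the congruence subgroup property holds if and only if the noncongruence subgroups are rare: for each
`d` there is an `n` with `(d n) ^ (log₂ d) nc_{dn} < s_n`; the same with the numbers of the normal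
subgroups.

(3) If the property fails there are a normal congruence subgroup `H`, a finite simple group `Q` and a
surjection `f : H → Q`, trivial on the inner automorphisms, such that `f (H') = Q` for ALL congruence
subgroups `H'` contained in `H`; and for all `n` there are at least as many noncongruence subgroups of
index `n |Q|` in `H` as there are congruence subgroups of index `n` in `H`.

(4) So the congruence subgroup property holds if and only if for every surjection of a normal congruence
subgroup `H` onto a finite simple group the image of some congruence subgroup `H'` contained in `H` is not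
the whole simple group (it need not be trivial).
-/

set_option autoImplicit false

namespace Pool.Agent.Results.MP_59b15d_al.NoncongruenceFrequency

open Subgroup Pool.Agent.P8H25.CSP

/-- `G` is the fundamental group of the closed orientable surface of genus `g`. -/
def IsSurfaceGroup (g : ℕ) (G : Type) [Group G] : Prop :=
  Nonempty (G ≃* PresentedGroup
    ({(List.ofFn (fun i : Fin g =>
        FreeGroup.of (Sum.inl i : Fin g ⊕ Fin g) *
        FreeGroup.of (Sum.inr i : Fin g ⊕ Fin g) *
        (FreeGroup.of (Sum.inl i : Fin g ⊕ Fin g))⁻¹ *
        (FreeGroup.of (Sum.inr i : Fin g ⊕ Fin g))⁻¹)).prod} :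
      Set (FreeGroup (Fin g ⊕ Fin g))))

/-- Question Q1: the congruence subgroup property for all closed orientable surfaces of genus at least two. -/
def Question : Prop := ∀ g : ℕ, 2 ≤ g → ∀ (G : Type) [Group G], IsSurfaceGroup g G → CongruenceProperty G

/-- The noncongruence subgroups are rare. -/
def Rare (G : Type) [Group G] : Prop :=
  ∀ d : ℕ, d ≠ 0 → ∃ n : ℕ, (((d * n) ^ Nat.log 2 d : ℕ) : ℕ∞) * ncSubs G (d * n) < subs G n

/-- The normal noncongruence subgroups are rare among the normal subgroups. -/
def RareNormal (G : Type) [Group G] : Prop :=
  ∀ d : ℕ, d ≠ 0 → ∃ n : ℕ, (((d * n) ^ Nat.log 2 d : ℕ) : ℕ∞) * ncNormalSubs G (d * n) < normalSubs G n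

/-- No surjection of a normal congruence subgroup onto a finite simple group, trivial on the inner
automorphisms, remains surjective on all smaller congruence subgroups. -/
def NoPersistentQuotient (G : Type) [Group G] : Prop :=
  ∀ H : Subgroup (MulAut G), Congruence H → H.Normal →
    ∀ (Q : Type) [Group Q], Finite Q → IsSimpleGroup Q → ∀ f : H →* Q, Function.Surjective f →
      (∀ (x : G) (y : H), (y : MulAut G) = MulAut.conj x → f y = 1) → ¬ Persistent H f

/-- The frequency law: for every noncongruence subgroup `N` of index `d` and every family of subgroups
closed under the intersection with `N` (and for all subgroups of `Out (G)`) the number of members of index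
at most `n` is at most `(d n) ^ (log₂ d)` times the number of the noncongruence members of index at most
`d n`. -/
def FrequencyLaw (G : Type) [Group G] : Prop :=
  ∀ N : Subgroup (MulAut G), N.index ≠ 0 → Outer N → ¬ Congruence N →
    (∀ n : ℕ, subs G n ≤ (((N.index * n) ^ Nat.log 2 N.index : ℕ) : ℕ∞) * ncSubs G (N.index * n)) ∧
    ∀ 𝓕 : Set (Subgroup (MulAut G)), (∀ K ∈ 𝓕, K ⊓ N ∈ 𝓕) → ∀ n : ℕ,
      {K : Subgroup (MulAut G) | K ∈ 𝓕 ∧ K.index ≠ 0 ∧ K.index ≤ n}.encard ≤
        (((N.index * n) ^ Nat.log 2 N.index : ℕ) : ℕ∞) *
          {K : Subgroup (MulAut G) | K ∈ 𝓕 ∧ ¬ Congruence K ∧ K.index ≠ 0 ∧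
            K.index ≤ N.index * n}.encard

/-- There are a normal congruence subgroup `H` and a surjection of `H` onto a finite simple group `Q`,
trivial on the inner automorphisms, which remains surjective on all smaller congruence subgroups; and for
every `n ≥ 1` there are at least as many noncongruence subgroups of index `n |Q|` in `H` as there are
congruence subgroups of index `n` in `H`. -/
def PersistentFailure (G : Type) [Group G] : Prop :=
  ∃ H : Subgroup (MulAut G), Congruence H ∧ H.Normal ∧
    ∃ (Q : Type) (_ : Group Q), Finite Q ∧ IsSimpleGroup Q ∧ ∃ f : H →* Q, Function.Surjective f ∧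
      (∀ (x : G) (y : H), (y : MulAut G) = MulAut.conj x → f y = 1) ∧ Persistent H f ∧
      ∀ n : ℕ, n ≠ 0 →
        {K : Subgroup (MulAut G) | K ≤ H ∧ Congruence K ∧ K.relIndex H = n}.encard ≤
          {K : Subgroup (MulAut G) | K ≤ H ∧ Outer K ∧ ¬ Congruence K ∧
            K.relIndex H = n * Nat.card Q}.encard

/-- **The congruence subgroup problem and the frequency of the noncongruence subgroups.** -/
theorem result :
    (Question ↔ ∀ g : ℕ, 2 ≤ g → ∀ (G : Type) [Group G], IsSurfaceGroup g G → Rare G) ∧
    (Question ↔ ∀ g : ℕ, 2 ≤ g → ∀ (G : Type) [Group G], IsSurfaceGroup g G → RareNormal G) ∧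
    (Question ↔ ∀ g : ℕ, 2 ≤ g → ∀ (G : Type) [Group G], IsSurfaceGroup g G → NoPersistentQuotient G) ∧
    ∀ (G : Type) [Group G],
      (CongruenceProperty G ↔ Rare G) ∧
      (CongruenceProperty G ↔ RareNormal G) ∧
      (CongruenceProperty G ↔ NoPersistentQuotient G) ∧
      FrequencyLaw G ∧
      (¬ CongruenceProperty G → PersistentFailure G) := by
  have hsimple : ∀ (G : Type) [Group G], CongruenceProperty G ↔ NoPersistentQuotient G := by
    intro G _
    rw [csp_iff_simple]
    constructor
    · intro h H hH hHn Q _ hQ hQs f hf hfo hp
      obtain ⟨H', h1, h2, h3⟩ := h H hH hHn Q hQ hQs f hf hfo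
      exact h3 (hp H' h1 h2)
    · intro h H hH hHn Q _ hQ hQs f hf hfo
      have h1 := h H hH hHn Q hQ hQs f hf hfo
      unfold Persistent at h1
      push Not at h1
      exact h1
  refine ⟨?_, ?_, ?_, ?_⟩
  · exact forall_congr' fun g => forall_congr' fun _ => forall_congr' fun G => forall_congr' fun _ =>
      forall_congr' fun _ => csp_iff_rare
  · exact forall_congr' fun g => forall_congr' fun _ => forall_congr' fun G => forall_congr' fun _ =>
      forall_congr' fun _ => csp_iff_rare_normal
  · exact forall_congr' fun g => forall_congr' fun _ => forall_congr' fun G => forall_congr' fun _ =>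
      forall_congr' fun _ => hsimple G
  · intro G _
    refine ⟨csp_iff_rare, csp_iff_rare_normal, hsimple G, ?_, fun h => not_csp h⟩
    intro N hN0 hNo hN
    exact ⟨fun n => subs_le N hN0 hNo hN n,
      fun 𝓕 h𝓕 n => frequency Congruence congClass.mono N hN0 hN 𝓕 h𝓕 n⟩

end Pool.Agent.Results.MP_59b15d_al.NoncongruenceFrequency
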